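import Mathlib

set_option autoImplicit false

open Finset

namespace Pool.Agent.X17.HL

/-- all `(r', c')` with `L r c = L r' c'` and `L r c' = L r' c`, including `(r, c)` itself -/
def full {X : Type} [Fintype X] [DecidableEq X] (L : X → X → X) (r c : X) : Finset (X × X) :=
  univ.filter fun p => L r c = L p.1 p.2 ∧ L r p.2 = L p.1 c

/-- rows and columns are injective -/
def Lat {X : Type} (L : X → X → X) : Prop :=
  (∀ r, Function.Injective (L r)) ∧ ∀ c, Function.Injective fun r => L r c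

/-- there is a latin square of order `n` with all full counts equal to `F` -/
def Att (n F : ℕ) : Prop :=
  ∃ (X : Type) (_ : Fintype X) (_ : DecidableEq X) (L : X → X → X),
    Fintype.card X = n ∧ Lat L ∧ ∀ r c, (full L r c).card = F

/-- the block structures -/
structure Blk {I G : Type} [Add I] [Fintype G] [DecidableEq G] (B : I → I → G → G → G)
    (x : I → ℕ) : Prop where
  left : ∀ r c a, Function.Injective (B r c a)
  right : ∀ r c v, Function.Injective fun a => B r c a v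
  cnt : ∀ r c d a v, (univ.filter fun p : G × G =>
    B r c a v = B (r + d) (c + d) p.1 p.2 ∧ B r (c + d) a p.2 = B (r + d) c p.1 v).card = x d

/-- `x` is realised by blocks of order `b` -/
def Rz (I : Type) [Add I] (b : ℕ) (x : I → ℕ) : Prop :=
  ∃ (G : Type) (_ : Fintype G) (_ : DecidableEq G) (B : I → I → G → G → G),
    Fintype.card G = b ∧ Blk B x

variable {I : Type} [AddCommGroup I]

theorem Rz.mul {b b' : ℕ} {x x' : I → ℕ} (h : Rz I b x) (h' : Rz I b' x') :
    Rz I (b * b') fun d => x d * x' d := by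
  obtain ⟨G, _, _, B, hc, hB⟩ := h
  obtain ⟨G', _, _, B', hc', hB'⟩ := h'
  refine ⟨G × G', inferInstance, inferInstance,
    fun r c a v => (B r c a.1 v.1, B' r c a.2 v.2), ?_, ?_, ?_, ?_⟩
  · rw [Fintype.card_prod, hc, hc']
  · rintro r c ⟨a, a'⟩ ⟨v, v'⟩ ⟨w, w'⟩ h
    simp only [Prod.mk.injEq] at h
    rw [hB.left r c a h.1, hB'.left r c a' h.2]
  · rintro r c ⟨v, v'⟩ ⟨a, a'⟩ ⟨w, w'⟩ h
    simp only [Prod.mk.injEq] at h
    rw [hB.right r c v h.1, hB'.right r c v' h.2]
  · rintro r c d ⟨a, a'⟩ ⟨v, v'⟩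
    rw [← hB.cnt r c d a v, ← hB'.cnt r c d a' v', ← card_product]
    refine card_nbij' (fun p => ((p.1.1, p.2.1), (p.1.2, p.2.2)))
      (fun p => ((p.1.1, p.2.1), (p.1.2, p.2.2))) ?_ ?_ ?_ ?_
    · rintro ⟨⟨p1, p1'⟩, ⟨p2, p2'⟩⟩ hp
      simp only [mem_filter, mem_univ, true_and, Prod.mk.injEq, mem_product, coe_filter,
        Set.mem_setOf_eq, coe_product, Set.mem_prod] at hp ⊢
      tauto
    · rintro ⟨⟨p1, p1'⟩, ⟨p2, p2'⟩⟩ hp
      simp only [mem_filter, mem_univ, true_and, Prod.mk.injEq, mem_product, coe_filter,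
        Set.mem_setOf_eq, coe_product, Set.mem_prod] at hp ⊢
      tauto
    · rintro ⟨⟨p1, p1'⟩, ⟨p2, p2'⟩⟩ hp; rfl
    · rintro ⟨⟨p1, p1'⟩, ⟨p2, p2'⟩⟩ hp; rfl

theorem Rz.one : Rz I 1 fun _ => 1 := by
  refine ⟨Unit, inferInstance, inferInstance, fun _ _ _ _ => (), by simp, ?_, ?_, ?_⟩
  · intro r c a v w _; rfl
  · intro r c a v w _; rfl
  · intro r c d a v
    simp

theorem Rz.prod {ι : Type} [DecidableEq ι] (s : Finset ι) (b : ι → ℕ) (x : ι → I → ℕ)
    (h : ∀ k ∈ s, Rz I (b k) (x k)) : Rz I (∏ k ∈ s, b k) fun d => ∏ k ∈ s, x k d := by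
  induction s using Finset.induction_on with
  | empty => simpa using Rz.one
  | insert k s hk ih =>
    have h1 := (h k (mem_insert_self k s)).mul (ih fun j hj => h j (mem_insert_of_mem hj))
    rw [prod_insert hk]
    convert h1 using 2 with d
    rw [prod_insert hk]

/-- the square of a block structure -/
def sq {G : Type} (B : I → I → G → G → G) (r c : I × G) : I × G :=
  (r.1 + c.1, B r.1 c.1 r.2 c.2)

theorem att_of_Rz [Fintype I] [DecidableEq I] (h2 : ∀ x : I, x + x = 0) {b : ℕ} {x : I → ℕ}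
    (h : Rz I b x) : Att (Fintype.card I * b) (∑ d, x d) := by
  obtain ⟨G, _, _, B, hc, hB⟩ := h
  refine ⟨I × G, inferInstance, inferInstance, sq B, by rw [Fintype.card_prod, hc], ⟨?_, ?_⟩, ?_⟩
  · rintro ⟨r, a⟩ ⟨c, v⟩ ⟨c', v'⟩ h
    simp only [sq, Prod.mk.injEq] at h
    obtain ⟨h1, h3⟩ := h
    have hcc := add_left_cancel h1
    subst hcc
    rw [hB.left r c a h3]
  · rintro ⟨c, v⟩ ⟨r, a⟩ ⟨r', a'⟩ h
    simp only [sq, Prod.mk.injEq] at h
    obtain ⟨h1, h3⟩ := h
    have hcc := add_right_cancel h1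
    subst hcc
    rw [hB.right r c v h3]
  · rintro ⟨r, a⟩ ⟨c, v⟩
    rw [card_eq_sum_card_fiberwise (f := fun p : (I × G) × (I × G) => p.1.1 + r) (t := univ)
      (fun _ _ => mem_coe.2 (mem_univ _))]
    refine sum_congr rfl fun d _ => ?_
    rw [← hB.cnt r c d a v]
    refine card_nbij' (fun p => (p.1.2, p.2.2)) (fun p => ((r + d, p.1), (c + d, p.2)))
      ?_ ?_ ?_ ?_
    · rintro ⟨⟨r', a'⟩, ⟨c', v'⟩⟩ hp
      simp only [coe_filter, mem_filter, full, sq, mem_univ, true_and, Prod.mk.injEq,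
        Set.mem_setOf_eq] at hp ⊢
      obtain ⟨⟨⟨h3, h4⟩, h5, h6⟩, h7⟩ := hp
      have hr : r' = r + d := by
        rw [← h7, add_comm r' r, ← add_assoc, h2, zero_add]
      have hcc : c' = c + d := by
        rw [hr] at h3
        have h8 : r + c = r + (d + c') := by rw [h3]; abel
        have h9 := add_left_cancel h8
        rw [h9, add_comm (d + c') d, ← add_assoc, h2, zero_add]
      subst hr hcc
      exact ⟨h4, h6⟩
    · rintro ⟨a', v'⟩ hp
      simp only [coe_filter, mem_filter, full, sq, mem_univ, true_and, Prod.mk.injEq,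
        Set.mem_setOf_eq] at hp ⊢
      refine ⟨⟨⟨?_, hp.1⟩, ?_, hp.2⟩, ?_⟩
      · have : r + d + (c + d) = r + c + (d + d) := by abel
        rw [this, h2, add_zero]
      · abel
      · have : r + d + r = (r + r) + d := by abel
        rw [this, h2, zero_add]
    · rintro ⟨⟨r', a'⟩, ⟨c', v'⟩⟩ hp
      simp only [coe_filter, mem_filter, full, sq, mem_univ, true_and, Prod.mk.injEq,
        Set.mem_setOf_eq] at hp
      obtain ⟨⟨⟨h3, h4⟩, h5, h6⟩, h7⟩ := hp
      have hr : r' = r + d := by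
        rw [← h7, add_comm r' r, ← add_assoc, h2, zero_add]
      have hcc : c' = c + d := by
        rw [hr] at h3
        have h8 : r + c = r + (d + c') := by rw [h3]; abel
        have h9 := add_left_cancel h8
        rw [h9, add_comm (d + c') d, ← add_assoc, h2, zero_add]
      subst hr hcc
      rfl
    · rintro ⟨a', v'⟩ hp
      rfl

/-- product of squares -/
theorem Att.mul {n F n' F' : ℕ} (h : Att n F) (h' : Att n' F') : Att (n * n') (F * F') := by
  obtain ⟨X, _, _, L, hc, hL, hF⟩ := h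
  obtain ⟨X', _, _, L', hc', hL', hF'⟩ := h'
  refine ⟨X × X', inferInstance, inferInstance, fun r c => (L r.1 c.1, L' r.2 c.2),
    by rw [Fintype.card_prod, hc, hc'], ⟨?_, ?_⟩, ?_⟩
  · rintro ⟨r, r'⟩ ⟨c, c'⟩ ⟨d, d'⟩ h
    simp only [Prod.mk.injEq] at h
    rw [hL.1 r h.1, hL'.1 r' h.2]
  · rintro ⟨r, r'⟩ ⟨c, c'⟩ ⟨d, d'⟩ h
    simp only [Prod.mk.injEq] at h
    rw [hL.2 r h.1, hL'.2 r' h.2]
  · rintro ⟨r, r'⟩ ⟨c, c'⟩
    rw [← hF r c, ← hF' r' c', ← card_product]
    refine card_nbij' (fun p => ((p.1.1, p.2.1), (p.1.2, p.2.2)))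
      (fun p => ((p.1.1, p.2.1), (p.1.2, p.2.2))) ?_ ?_ ?_ ?_
    · rintro ⟨⟨p1, p1'⟩, ⟨p2, p2'⟩⟩ hp
      simp only [full, mem_filter, mem_univ, true_and, Prod.mk.injEq, mem_product, coe_filter,
        Set.mem_setOf_eq, coe_product, Set.mem_prod] at hp ⊢
      tauto
    · rintro ⟨⟨p1, p1'⟩, ⟨p2, p2'⟩⟩ hp
      simp only [full, mem_filter, mem_univ, true_and, Prod.mk.injEq, mem_product, coe_filter,
        Set.mem_setOf_eq, coe_product, Set.mem_prod] at hp ⊢
      tauto
    · rintro ⟨⟨p1, p1'⟩, ⟨p2, p2'⟩⟩ hp; rfl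
    · rintro ⟨⟨p1, p1'⟩, ⟨p2, p2'⟩⟩ hp; rfl

/-- the cyclic square of odd order has no intercalates -/
theorem att_odd {m : ℕ} (hm : Odd m) : Att m 1 := by
  have hm0 : NeZero m := ⟨by rintro rfl; exact absurd hm (by decide)⟩
  refine ⟨ZMod m, inferInstance, inferInstance, fun r c => r + c, ZMod.card m, ⟨?_, ?_⟩, ?_⟩
  · intro r c d h; exact add_left_cancel h
  · intro r c d h; exact add_right_cancel h
  · intro r c
    rw [card_eq_one]
    refine ⟨(r, c), ?_⟩
    ext ⟨r', c'⟩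
    simp only [full, mem_filter, mem_univ, true_and, mem_singleton, Prod.mk.injEq]
    constructor
    · rintro ⟨h1, h2⟩
      have h3 : (2 : ZMod m) * (r - r') = 0 := by linear_combination h1 + h2
      have hu : IsUnit (2 : ZMod m) := by
        have : ((2 : ℕ) : ZMod m) = 2 := by norm_num
        rw [← this, ZMod.isUnit_iff_coprime]
        exact (Nat.coprime_two_left).2 hm
      have h4 : r - r' = 0 := hu.mul_left_cancel (by rw [h3, mul_zero])
      have h5 : r' = r := (sub_eq_zero.1 h4).symm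
      subst h5
      exact ⟨rfl, (add_left_cancel h1).symm⟩
    · rintro ⟨rfl, rfl⟩; exact ⟨rfl, rfl⟩

end Pool.Agent.X17.HL
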