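import Pool.Agent.X17.HL.Basic

set_option autoImplicit false

open Finset

namespace Pool.Agent.X17.HL

section count

variable {b : ℕ} [NeZero b]

/-- exactly one solution of the two linear equations -/
theorem count_one {P1 P2 P3 P4 R1 R2 R3 R4 K1 K2 K3 K4 a v hf : ZMod b} (h2 : 2 * hf = 1)
    (p2 : P2 * P2 = 1) (p4 : P4 * P4 = 1) (r2 : R2 * R2 = 1) (r3 : R3 * R3 = 1)
    (ht : P2 * P4 = R2 * R3) :
    (univ.filter fun p : ZMod b × ZMod b =>
      P1 * a + R1 * v + K1 = P2 * p.1 + R2 * p.2 + K2 ∧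
      P3 * a + R3 * p.2 + K3 = P4 * p.1 + R4 * v + K4).card = 1 := by
  rw [card_eq_one]
  refine ⟨(hf * (P2 * (P1 * a + R1 * v + K1 - K2) + P4 * (P3 * a - R4 * v + K3 - K4)),
    hf * (R2 * (P1 * a + R1 * v + K1 - K2) - R3 * (P3 * a - R4 * v + K3 - K4))), ?_⟩
  have e1 : P2 * R2 = P4 * R3 := by
    linear_combination (-(P2 * R2)) * p4 + (R2 * P4) * ht + (P4 * R3) * r2
  ext ⟨x, y⟩
  simp only [mem_filter, mem_univ, true_and, mem_singleton, Prod.mk.injEq]
  constructor
  · rintro ⟨h3, h4⟩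
    constructor
    · linear_combination (-x) * h2 - hf * x * p2 - hf * x * p4 - hf * P2 * h3 - hf * P4 * h4 -
        hf * y * e1
    · linear_combination (-y) * h2 - hf * y * r2 - hf * y * r3 - hf * x * e1 - hf * R2 * h3 +
        hf * R3 * h4
  · rintro ⟨rfl, rfl⟩
    constructor
    · linear_combination (-(P1 * a + R1 * v + K1 - K2)) * h2 -
        hf * (P1 * a + R1 * v + K1 - K2) * p2 - hf * (P1 * a + R1 * v + K1 - K2) * r2 -
        hf * (P3 * a - R4 * v + K3 - K4) * ht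
    · linear_combination (-(P3 * a - R4 * v + K3 - K4)) * h2 -
        hf * (P3 * a - R4 * v + K3 - K4) * p4 - hf * (P3 * a - R4 * v + K3 - K4) * r3 -
        hf * (P1 * a + R1 * v + K1 - K2) * ht

/-- `b` solutions -/
theorem count_all {P1 P2 P3 P4 R1 R2 R3 R4 K1 K2 K3 K4 a v : ZMod b}
    (p2 : P2 * P2 = 1) (p3 : P3 * P3 = 1) (p4 : P4 * P4 = 1) (r2 : R2 * R2 = 1)
    (r4 : R4 * R4 = 1) (hP : P1 * P2 * P3 * P4 = 1) (hR : R1 * R2 * R3 * R4 = 1)
    (ht : P2 * P4 = -(R2 * R3)) (hK : K1 - K2 = P2 * P4 * (K3 - K4)) :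
    (univ.filter fun p : ZMod b × ZMod b =>
      P1 * a + R1 * v + K1 = P2 * p.1 + R2 * p.2 + K2 ∧
      P3 * a + R3 * p.2 + K3 = P4 * p.1 + R4 * v + K4).card = b := by
  have f1 : P2 * P4 * P1 = P3 := by linear_combination P3 * hP - (P1 * P2 * P4) * p3
  have f2 : P2 * P4 * R1 = -R4 := by
    linear_combination R1 * ht - R4 * hR + (R1 * R2 * R3) * r4
  have f3 : P2 * P4 * (K1 - K2) = K3 - K4 := by
    linear_combination (P2 * P4) * hK + (K3 - K4) * (P4 * P4) * p2 + (K3 - K4) * p4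
  have key : (univ.filter fun p : ZMod b × ZMod b =>
      P1 * a + R1 * v + K1 = P2 * p.1 + R2 * p.2 + K2 ∧
      P3 * a + R3 * p.2 + K3 = P4 * p.1 + R4 * v + K4) =
      (univ : Finset (ZMod b)).image
        (fun s => (s, R2 * (P1 * a + R1 * v + K1 - K2 - P2 * s))) := by
    ext ⟨x, y⟩
    simp only [mem_filter, mem_univ, true_and, mem_image, Prod.mk.injEq]
    constructor
    · rintro ⟨h3, h4⟩
      refine ⟨x, rfl, ?_⟩
      linear_combination y * r2 + R2 * h3
    · rintro ⟨s, rfl, rfl⟩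
      constructor
      · linear_combination (-(P1 * a + R1 * v + K1 - K2 - P2 * s)) * r2
      · linear_combination (-a) * f1 - v * f2 - f3 +
          (P1 * a + R1 * v + K1 - K2 - P2 * s) * ht + s * P4 * p2
  rw [key, card_image_of_injective _ (fun s t h => (Prod.mk.inj h).1), card_univ, ZMod.card]

/-- no solutions -/
theorem count_zero {P1 P2 P3 P4 R1 R2 R3 R4 K1 K2 K3 K4 a v : ZMod b}
    (p1 : P1 * P1 = 1) (p4 : P4 * P4 = 1) (r1 : R1 * R1 = 1) (r3 : R3 * R3 = 1)
    (hP : P1 * P2 * P3 * P4 = 1) (hR : R1 * R2 * R3 * R4 = 1)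
    (ht : P2 * P4 = -(R2 * R3)) (hK : K1 - K2 ≠ P2 * P4 * (K3 - K4)) :
    (univ.filter fun p : ZMod b × ZMod b =>
      P1 * a + R1 * v + K1 = P2 * p.1 + R2 * p.2 + K2 ∧
      P3 * a + R3 * p.2 + K3 = P4 * p.1 + R4 * v + K4).card = 0 := by
  rw [card_eq_zero, filter_eq_empty_iff]
  rintro ⟨x, y⟩ - ⟨h3, h4⟩
  simp only at h3 h4
  apply hK
  have g1 : P2 * P4 * P3 = P1 := by linear_combination P1 * hP - (P2 * P3 * P4) * p1
  have g2 : P2 * P4 * R4 = -R1 := by
    linear_combination R4 * ht - R1 * hR + (R2 * R3 * R4) * r1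
  linear_combination h3 - P2 * P4 * h4 - P2 * x * p4 + a * g1 - v * g2 + y * R3 * ht -
    y * R2 * r3

end count

/-- signs -/
def sg (b : ℕ) (s : ZMod 2) : ZMod b := if s = 0 then 1 else -1

/-- indicator -/
def kp (b : ℕ) (s : ZMod 2) : ZMod b := if s = 0 then 0 else 1

theorem sg_mul_self (b : ℕ) (s : ZMod 2) : sg b s * sg b s = 1 := by
  unfold sg; split_ifs <;> ring

theorem zmod2 (s : ZMod 2) : s = 0 ∨ s = 1 := by revert s; decide

theorem sg_add (b : ℕ) (s t : ZMod 2) : sg b (s + t) = sg b s * sg b t := by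
  rcases zmod2 s with rfl | rfl <;> rcases zmod2 t with rfl | rfl <;>
    simp [sg, show (1 : ZMod 2) + 1 = 0 from rfl]

theorem sg_zero (b : ℕ) : sg b 0 = 1 := by simp [sg]
theorem sg_one (b : ℕ) : sg b 1 = -1 := by simp [sg]

/-- one coordinate: signs `p`, `ρ`, constants `κ`, factor `x` -/
theorem rz_coord {I : Type} [AddCommGroup I] {b : ℕ} (hb : Odd b) (p ρ : I → I → ZMod 2)
    (κ : I → I → ZMod b) (x : I → ℕ)
    (hp : ∀ r c d, p r c + p (r + d) (c + d) + p r (c + d) + p (r + d) c = 0)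
    (hρ : ∀ r c d, ρ r c + ρ (r + d) (c + d) + ρ r (c + d) + ρ (r + d) c = 0)
    (hx : ∀ r c d,
      (p (r + d) (c + d) + p (r + d) c + ρ (r + d) (c + d) + ρ r (c + d) = 0 ∧ x d = 1) ∨
      (p (r + d) (c + d) + p (r + d) c + ρ (r + d) (c + d) + ρ r (c + d) = 1 ∧ x d = b ∧
        κ r c - κ (r + d) (c + d) =
          sg b (p (r + d) (c + d) + p (r + d) c) * (κ r (c + d) - κ (r + d) c)) ∨
      (p (r + d) (c + d) + p (r + d) c + ρ (r + d) (c + d) + ρ r (c + d) = 1 ∧ x d = 0 ∧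
        κ r c - κ (r + d) (c + d) ≠
          sg b (p (r + d) (c + d) + p (r + d) c) * (κ r (c + d) - κ (r + d) c))) :
    Rz I b x := by
  have hb0 : NeZero b := ⟨by rintro rfl; exact absurd hb (by decide)⟩
  obtain ⟨hf, hhf⟩ : ∃ hf : ZMod b, 2 * hf = 1 := by
    have hu : IsUnit (2 : ZMod b) := by
      have : ((2 : ℕ) : ZMod b) = 2 := by norm_num
      rw [← this, ZMod.isUnit_iff_coprime]
      exact (Nat.coprime_two_left).2 hb
    obtain ⟨u, hu⟩ := hu
    exact ⟨↑u⁻¹, by rw [← hu, Units.mul_inv]⟩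
  refine ⟨ZMod b, inferInstance, inferInstance,
    fun r c a v => sg b (p r c) * a + sg b (ρ r c) * v + κ r c, ZMod.card b, ?_, ?_, ?_⟩
  · intro r c a v w h
    simp only at h
    have h1 := sg_mul_self b (ρ r c)
    linear_combination sg b (ρ r c) * h + (w - v) * h1
  · intro r c v a w h
    simp only at h
    have h1 := sg_mul_self b (p r c)
    linear_combination sg b (p r c) * h + (w - a) * h1
  · intro r c d a v
    have hP : sg b (p r c) * sg b (p (r + d) (c + d)) * sg b (p r (c + d)) *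
        sg b (p (r + d) c) = 1 := by
      rw [← sg_add, ← sg_add, ← sg_add, hp, sg_zero]
    have hR : sg b (ρ r c) * sg b (ρ (r + d) (c + d)) * sg b (ρ r (c + d)) *
        sg b (ρ (r + d) c) = 1 := by
      rw [← sg_add, ← sg_add, ← sg_add, hρ, sg_zero]
    have hprod : sg b (p (r + d) (c + d)) * sg b (p (r + d) c) *
        (sg b (ρ (r + d) (c + d)) * sg b (ρ r (c + d))) =
        sg b (p (r + d) (c + d) + p (r + d) c + ρ (r + d) (c + d) + ρ r (c + d)) := by
      rw [sg_add, sg_add, sg_add]; ring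
    have s1 := sg_mul_self b (ρ (r + d) (c + d))
    have s2 := sg_mul_self b (ρ r (c + d))
    rcases hx r c d with ⟨h1, h2⟩ | ⟨h1, h2, h3⟩ | ⟨h1, h2, h3⟩
    · rw [h2]
      rw [h1, sg_zero] at hprod
      refine count_one hhf (sg_mul_self _ _) (sg_mul_self _ _) (sg_mul_self _ _)
        (sg_mul_self _ _) ?_
      linear_combination (sg b (ρ (r + d) (c + d)) * sg b (ρ r (c + d))) * hprod -
        (sg b (p (r + d) (c + d)) * sg b (p (r + d) c) * sg b (ρ r (c + d)) *
          sg b (ρ r (c + d))) * s1 - (sg b (p (r + d) (c + d)) * sg b (p (r + d) c)) * s2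
    · rw [h2]
      rw [h1, sg_one] at hprod
      rw [sg_add] at h3
      refine count_all (sg_mul_self _ _) (sg_mul_self _ _) (sg_mul_self _ _) (sg_mul_self _ _)
        (sg_mul_self _ _) hP hR ?_ h3
      linear_combination (sg b (ρ (r + d) (c + d)) * sg b (ρ r (c + d))) * hprod -
        (sg b (p (r + d) (c + d)) * sg b (p (r + d) c) * sg b (ρ r (c + d)) *
          sg b (ρ r (c + d))) * s1 - (sg b (p (r + d) (c + d)) * sg b (p (r + d) c)) * s2
    · rw [h2]
      rw [h1, sg_one] at hprod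
      rw [sg_add] at h3
      refine count_zero (sg_mul_self _ _) (sg_mul_self _ _) (sg_mul_self _ _) (sg_mul_self _ _)
        hP hR ?_ h3
      linear_combination (sg b (ρ (r + d) (c + d)) * sg b (ρ r (c + d))) * hprod -
        (sg b (p (r + d) (c + d)) * sg b (p (r + d) c) * sg b (ρ r (c + d)) *
          sg b (ρ r (c + d))) * s1 - (sg b (p (r + d) (c + d)) * sg b (p (r + d) c)) * s2

end Pool.Agent.X17.HL
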