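import Pool.Agent.X17.HL.Kinds

set_option autoImplicit false

open Finset

namespace Pool.Agent.X17.HL

/-- the four group -/
abbrev I4 := ZMod 2 × ZMod 2

/-- weights `1, x, y, z` -/
def xyz (x y z : ℕ) : I4 → ℕ := fun d =>
  if d = 0 then 1 else if d = (1, 0) then x else if d = (0, 1) then y else z

theorem I4_cases (d : I4) : d = 0 ∨ d = (1, 0) ∨ d = (0, 1) ∨ d = (1, 1) := by
  revert d; decide

theorem xyz_0 (x y z : ℕ) : xyz x y z 0 = 1 := by simp [xyz]
theorem xyz_1 (x y z : ℕ) : xyz x y z (1, 0) = x := by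
  unfold xyz; rw [if_neg (by decide), if_pos rfl]
theorem xyz_2 (x y z : ℕ) : xyz x y z (0, 1) = y := by
  unfold xyz; rw [if_neg (by decide), if_neg (by decide), if_pos rfl]
theorem xyz_3 (x y z : ℕ) : xyz x y z (1, 1) = z := by
  unfold xyz; rw [if_neg (by decide), if_neg (by decide), if_neg (by decide)]

theorem ext4 {f g : I4 → ℕ} (h0 : f 0 = g 0) (h1 : f (1, 0) = g (1, 0)) (h2 : f (0, 1) = g (0, 1))
    (h3 : f (1, 1) = g (1, 1)) : f = g := by
  funext d
  rcases I4_cases d with rfl | rfl | rfl | rfl <;> assumption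

theorem xyz_sum (x y z : ℕ) : ∑ d, xyz x y z d = 1 + x + y + z := by
  rw [show (univ : Finset I4) = {0, (1, 0), (0, 1), (1, 1)} from by decide,
    sum_insert (by decide), sum_insert (by decide), sum_insert (by decide), sum_singleton,
    xyz_0, xyz_1, xyz_2, xyz_3]
  ring

theorem xyz_mul (x y z x' y' z' : ℕ) :
    (fun d => xyz x y z d * xyz x' y' z' d) = xyz (x * x') (y * y') (z * z') := by
  apply ext4 <;> simp only [xyz_0, xyz_1, xyz_2, xyz_3]

/-- the bilinear form -/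
def bt (α γ δ : ZMod 2) (u v : I4) : ZMod 2 := α * u.1 * v.1 + γ * u.1 * v.2 + δ * u.2 * v.2

theorem bt_l (α γ δ : ZMod 2) (x y z : I4) : bt α γ δ (x + y) z = bt α γ δ x z + bt α γ δ y z := by
  unfold bt; simp only [Prod.fst_add, Prod.snd_add]; ring

theorem bt_r (α γ δ : ZMod 2) (x y z : I4) : bt α γ δ x (y + z) = bt α γ δ x y + bt α γ δ x z := by
  unfold bt; simp only [Prod.fst_add, Prod.snd_add]; ring

theorem exists_bt (s1 s2 s3 : ZMod 2) : ∃ α γ δ : ZMod 2, bt α γ δ 0 0 = 0 ∧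
    bt α γ δ (1, 0) (1, 0) = s1 ∧ bt α γ δ (0, 1) (0, 1) = s2 ∧ bt α γ δ (1, 1) (1, 1) = s3 := by
  revert s1 s2 s3
  unfold bt
  decide

/-- `1` or `p` -/
theorem rz_pat {b : ℕ} (hb : Odd b) {s1 s2 s3 : ℕ} (h1 : s1 = 1 ∨ s1 = b) (h2 : s2 = 1 ∨ s2 = b)
    (h3 : s3 = 1 ∨ s3 = b) : Rz I4 b (xyz s1 s2 s3) := by
  have hs : ∀ s : ℕ, s = 1 ∨ s = b → ∃ t : ZMod 2, s = if t = 0 then 1 else b := by
    rintro s (rfl | rfl)
    · exact ⟨0, by simp⟩
    · exact ⟨1, by rw [if_neg (by decide)]⟩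
  obtain ⟨t1, rfl⟩ := hs s1 h1
  obtain ⟨t2, rfl⟩ := hs s2 h2
  obtain ⟨t3, rfl⟩ := hs s3 h3
  obtain ⟨α, γ, δ, e0, e1, e2, e3⟩ := exists_bt t1 t2 t3
  have h : Rz I4 b fun d => if bt α γ δ d d = 0 then 1 else b :=
    rz_quad (bt α γ δ) (bt_l α γ δ) (bt_r α γ δ) hb
  suffices key : xyz (if t1 = 0 then 1 else b) (if t2 = 0 then 1 else b) (if t3 = 0 then 1 else b) =
      fun d => if bt α γ δ d d = 0 then 1 else b from by
    rw [key]; exact h
  apply ext4
  · rw [xyz_0, e0, if_pos rfl]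
  · rw [xyz_1, e1]
  · rw [xyz_2, e2]
  · rw [xyz_3, e3]

theorem rz_110 {b : ℕ} (hb : Odd b) (hb1 : 1 < b) : Rz I4 b (xyz 1 1 0) := by
  obtain ⟨α, γ, δ, e0, e1, e2, e3⟩ := exists_bt 0 0 1
  have h : Rz I4 b fun d => if bt α γ δ d d = 0 then 1 else 0 :=
    rz_kill (bt α γ δ) (bt_l α γ δ) (bt_r α γ δ) hb hb1
  suffices key : xyz 1 1 0 = fun d => if bt α γ δ d d = 0 then 1 else 0 from by
    rw [key]; exact h
  apply ext4
  · rw [xyz_0, e0, if_pos rfl]
  · rw [xyz_1, e1, if_pos rfl]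
  · rw [xyz_2, e2, if_pos rfl]
  · rw [xyz_3, e3, if_neg (by decide)]

theorem rz_1b0 {b : ℕ} (hb : Odd b) (hb1 : 1 < b) : Rz I4 b (xyz 1 b 0) := by
  have h : Rz I4 b fun d => if d.2 = 0 then 1 else if d.1 = 0 then b else 0 :=
    rz_lin (fun u : I4 => u.2) (fun u : I4 => u.1) (fun _ _ => rfl) (fun _ _ => rfl) hb hb1
  suffices key : xyz 1 b 0 = fun d => if d.2 = 0 then 1 else if d.1 = 0 then b else 0 from by
    rw [key]; exact h
  apply ext4
  · rw [xyz_0]; simp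
  · rw [xyz_1]; simp
  · rw [xyz_2]; simp
  · rw [xyz_3]; simp

theorem split {p b x : ℕ} (hp : p.Prime) (hx : x ∣ p * b) :
    ∃ s x' : ℕ, (s = 1 ∨ s = p) ∧ x' ∣ b ∧ s * x' = x := by
  by_cases h : p ∣ x
  · obtain ⟨x', rfl⟩ := h
    exact ⟨p, x', Or.inr rfl, Nat.dvd_of_mul_dvd_mul_left hp.pos hx, rfl⟩
  · exact ⟨1, x, Or.inl rfl, (Nat.Coprime.dvd_of_dvd_mul_left
      ((Nat.Prime.coprime_iff_not_dvd hp).2 h).symm hx), one_mul x⟩

theorem rz_div (b : ℕ) : Odd b → ∀ x y z : ℕ, x ∣ b → y ∣ b → z ∣ b → Rz I4 b (xyz x y z) := by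
  induction b using Nat.strong_induction_on with
  | _ b ih =>
    intro hb x y z hx hy hz
    by_cases h1 : b = 1
    · subst h1
      rw [Nat.dvd_one] at hx hy hz
      subst hx hy hz
      exact rz_pat hb (Or.inl rfl) (Or.inl rfl) (Or.inl rfl)
    · have hp := Nat.minFac_prime h1
      obtain ⟨b', hb'⟩ := Nat.minFac_dvd b
      set p := b.minFac with hpdef
      have hpo : Odd p := (Nat.odd_mul.1 (hb' ▸ hb)).1
      have hbo : Odd b' := (Nat.odd_mul.1 (hb' ▸ hb)).2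
      have hlt : b' < b := by
        rw [hb']
        have : 0 < b' := hbo.pos
        nlinarith [hp.two_le]
      rw [hb'] at hx hy hz
      obtain ⟨s1, x', hs1, hx', rfl⟩ := split hp hx
      obtain ⟨s2, y', hs2, hy', rfl⟩ := split hp hy
      obtain ⟨s3, z', hs3, hz', rfl⟩ := split hp hz
      have := (rz_pat hpo hs1 hs2 hs3).mul (ih b' hlt hbo x' y' z' hx' hy' hz')
      rw [xyz_mul] at this
      rw [hb']
      exact this

theorem rz_two {b x y : ℕ} (hb : Odd b) (hx : x ∣ b) (hy : y ∣ b) (hxb : x ≠ b) :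
    Rz I4 b (xyz x y 0) := by
  obtain ⟨k, hk⟩ := hx
  have hk1 : k ≠ 1 := by
    rintro rfl
    exact hxb (by rw [hk, mul_one])
  have hp := Nat.minFac_prime hk1
  obtain ⟨k', hk'⟩ := Nat.minFac_dvd k
  set p := k.minFac with hpdef
  have hbp : b = p * (x * k') := by rw [hk]; conv_lhs => rw [hk']
                                    ring
  have hpo : Odd p := (Nat.odd_mul.1 (hbp ▸ hb)).1
  have hbo : Odd (x * k') := (Nat.odd_mul.1 (hbp ▸ hb)).2
  rw [hbp] at hy
  obtain ⟨s, y', hs, hy', rfl⟩ := split hp hy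
  have h1 : Rz I4 p (xyz 1 s 0) := by
    rcases hs with rfl | rfl
    · exact rz_110 hpo hp.one_lt
    · exact rz_1b0 hpo hp.one_lt
  have := h1.mul (rz_div (x * k') hbo x y' 1 (Dvd.intro _ rfl) hy' (one_dvd _))
  rw [xyz_mul, one_mul, zero_mul] at this
  rw [hbp]
  exact this

theorem I4_add (x : I4) : x + x = 0 := by revert x; decide

theorem I4_card : Fintype.card I4 = 4 := by decide

/-- sums of three divisors -/
theorem att_three {b x y z : ℕ} (hb : Odd b) (hx : x ∣ b) (hy : y ∣ b) (hz : z ∣ b) :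
    Att (4 * b) (x + y + z + 1) := by
  have := att_of_Rz I4_add (rz_div b hb x y z hx hy hz)
  rw [xyz_sum, I4_card] at this
  convert this using 1
  ring

/-- sums of two divisors, not both equal to `b` -/
theorem att_two {b x y : ℕ} (hb : Odd b) (hx : x ∣ b) (hy : y ∣ b) (h : ¬(x = b ∧ y = b)) :
    Att (4 * b) (x + y + 1) := by
  by_cases hxb : x = b
  · have hyb : y ≠ b := fun hyb => h ⟨hxb, hyb⟩
    have := att_of_Rz I4_add (rz_two hb hy hx hyb)
    rw [xyz_sum, I4_card] at this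
    convert this using 1
    ring
  · have := att_of_Rz I4_add (rz_two hb hx hy hxb)
    rw [xyz_sum, I4_card] at this
    convert this using 1
    ring

end Pool.Agent.X17.HL
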