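import Pool.Agent.X17.HL.Four

set_option autoImplicit false

open Finset

namespace Pool.Agent.X17.HL

/-- value of the quadratic form of the matrix `M` -/
def quadVal {e : ℕ} (M : Matrix (Fin e) (Fin e) (ZMod 2)) (d : Fin e → ZMod 2) : ZMod 2 :=
  ∑ i, ∑ j, M i j * d i * d j

/-- the bilinear form of the matrix `M` -/
def biVal {e : ℕ} (M : Matrix (Fin e) (Fin e) (ZMod 2)) (x y : Fin e → ZMod 2) : ZMod 2 :=
  ∑ i, ∑ j, M i j * x i * y j

theorem biVal_l {e : ℕ} (M : Matrix (Fin e) (Fin e) (ZMod 2)) (x y z : Fin e → ZMod 2) :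
    biVal M (x + y) z = biVal M x z + biVal M y z := by
  unfold biVal
  rw [← sum_add_distrib]
  refine sum_congr rfl fun i _ => ?_
  rw [← sum_add_distrib]
  refine sum_congr rfl fun j _ => ?_
  simp only [Pi.add_apply]; ring

theorem biVal_r {e : ℕ} (M : Matrix (Fin e) (Fin e) (ZMod 2)) (x y z : Fin e → ZMod 2) :
    biVal M x (y + z) = biVal M x y + biVal M x z := by
  unfold biVal
  rw [← sum_add_distrib]
  refine sum_congr rfl fun i _ => ?_
  rw [← sum_add_distrib]
  refine sum_congr rfl fun j _ => ?_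
  simp only [Pi.add_apply]; ring

theorem att_quad (e : ℕ) {ι : Type} [Fintype ι] [DecidableEq ι]
    (M : ι → Matrix (Fin e) (Fin e) (ZMod 2)) (b : ι → ℕ) (S : Finset ι)
    (hb : ∀ k, Odd (b k)) (hS : ∀ k ∈ S, 1 < b k) :
    Att (2 ^ e * ∏ k, b k) ((∑ d ∈ univ.filter (fun d : Fin e → ZMod 2 => d ≠ 0),
      ∏ k, if quadVal (M k) d = 0 then 1 else if k ∈ S then 0 else b k) + 1) := by
  have h1 : Rz (Fin e → ZMod 2) (∏ k, b k) fun d =>
      ∏ k, if quadVal (M k) d = 0 then 1 else if k ∈ S then 0 else b k := by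
    refine Rz.prod univ b (fun k d => if quadVal (M k) d = 0 then 1 else if k ∈ S then 0 else b k)
      fun k _ => ?_
    by_cases hk : k ∈ S
    · have := rz_kill (biVal (M k)) (biVal_l (M k)) (biVal_r (M k)) (hb k) (hS k hk)
      simp only [hk, if_true]
      exact this
    · have := rz_quad (biVal (M k)) (biVal_l (M k)) (biVal_r (M k)) (hb k)
      simp only [hk, if_false]
      exact this
  have h2 : ∀ x : Fin e → ZMod 2, x + x = 0 := by
    intro x; funext i
    simp only [Pi.add_apply, Pi.zero_apply]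
    rcases zmod2 (x i) with h | h <;> rw [h] <;> rfl
  have h3 := att_of_Rz h2 h1
  rw [Fintype.card_fun, ZMod.card, Fintype.card_fin] at h3
  convert h3 using 1
  rw [← sum_filter_add_sum_filter_not univ (fun d : Fin e → ZMod 2 => d ≠ 0)]
  congr 1
  have h4 : (univ.filter fun d : Fin e → ZMod 2 => ¬ d ≠ 0) = {0} := by
    ext d; simp
  rw [h4, sum_singleton]
  symm
  apply prod_eq_one
  intro k _
  rw [if_pos]
  unfold quadVal
  simp

end Pool.Agent.X17.HL
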