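import Pool.Agent.X17.HL.Coord

set_option autoImplicit false

open Finset

namespace Pool.Agent.X17.HL

variable {I : Type} [AddCommGroup I]

section quad

variable (β : I → I → ZMod 2) (hl : ∀ x y z, β (x + y) z = β x z + β y z)
  (hr : ∀ x y z, β x (y + z) = β x y + β x z)

include hl hr

theorem quad_p (r c d : I) :
    (β r r + β r c + β c r) + (β (r + d) (r + d) + β (r + d) (c + d) + β (c + d) (r + d)) +
      (β r r + β r (c + d) + β (c + d) r) +
      (β (r + d) (r + d) + β (r + d) c + β c (r + d)) = 0 := by
  simp only [hl, hr]
  generalize β r r = a1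
  generalize β r c = a2
  generalize β r d = a3
  generalize β c r = a4
  generalize β c c = a5
  generalize β c d = a6
  generalize β d r = a7
  generalize β d c = a8
  generalize β d d = a9
  revert a1 a2 a3 a4 a5 a6 a7 a8 a9
  decide

theorem quad_t (r c d : I) :
    (β (r + d) (r + d) + β (r + d) (c + d) + β (c + d) (r + d)) +
      (β (r + d) (r + d) + β (r + d) c + β c (r + d)) + β (r + d) (r + d) + β r r = β d d := by
  simp only [hl, hr]
  generalize β r r = a1
  generalize β r c = a2
  generalize β r d = a3
  generalize β c r = a4
  generalize β c c = a5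
  generalize β c d = a6
  generalize β d r = a7
  generalize β d c = a8
  generalize β d d = a9
  revert a1 a2 a3 a4 a5 a6 a7 a8 a9
  decide

theorem quad_r (r c d : I) :
    β r r + β (r + d) (r + d) + β r r + β (r + d) (r + d) = 0 := by
  generalize β r r = a1
  generalize β (r + d) (r + d) = a2
  revert a1 a2
  decide

theorem quad_k (r c d : I) :
    β r c + β (r + d) (c + d) + β r (c + d) + β (r + d) c = β d d := by
  simp only [hl, hr]
  generalize β r c = a2
  generalize β r d = a3
  generalize β d c = a8
  generalize β d d = a9
  clear hl hr
  revert a2 a3 a8 a9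
  decide

theorem rz_quad {b : ℕ} (hb : Odd b) : Rz I b fun d => if β d d = 0 then 1 else b := by
  refine rz_coord hb (fun r c => β r r + β r c + β c r) (fun r _ => β r r) (fun _ _ => 0) _
    (fun r c d => quad_p β hl hr r c d) (fun r c d => quad_r β hl hr r c d) ?_
  intro r c d
  rw [quad_t β hl hr r c d]
  rcases zmod2 (β d d) with h | h
  · left; exact ⟨h, by rw [if_pos h]⟩
  · right; left; exact ⟨h, by rw [if_neg (by rw [h]; decide)], by simp⟩

theorem rz_kill {b : ℕ} (hb : Odd b) (hb1 : 1 < b) :
    Rz I b fun d => if β d d = 0 then 1 else 0 := by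
  refine rz_coord hb (fun r c => β r r + β r c + β c r) (fun r _ => β r r)
    (fun r c => kp b (β r c)) _
    (fun r c d => quad_p β hl hr r c d) (fun r c d => quad_r β hl hr r c d) ?_
  intro r c d
  rw [quad_t β hl hr r c d]
  rcases zmod2 (β d d) with h | h
  · left; exact ⟨h, by rw [if_pos h]⟩
  · right; right; refine ⟨h, by rw [if_neg (by rw [h]; decide)], ?_⟩
    have hk := quad_k β hl hr r c d
    rw [h] at hk
    have hb2 : Fact (1 < b) := ⟨hb1⟩
    have hn : Nontrivial (ZMod b) := ZMod.nontrivial b
    have h10 : (1 : ZMod b) ≠ 0 := one_ne_zero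
    generalize (β (r + d) (r + d) + β (r + d) (c + d) + β (c + d) (r + d)) +
      (β (r + d) (r + d) + β (r + d) c + β c (r + d)) = s
    generalize β r c = x1 at hk ⊢
    generalize β (r + d) (c + d) = x2 at hk ⊢
    generalize β r (c + d) = x3 at hk ⊢
    generalize β (r + d) c = x4 at hk ⊢
    intro he
    apply h10
    rcases zmod2 s with rfl | rfl <;> rcases zmod2 x1 with rfl | rfl <;>
      rcases zmod2 x2 with rfl | rfl <;> rcases zmod2 x3 with rfl | rfl <;>
      rcases zmod2 x4 with rfl | rfl <;>
      first
      | exact absurd hk (by decide)
      | (simp only [sg, kp, if_pos, one_ne_zero, if_false, ite_true, ite_false] at he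
         first
         | linear_combination he
         | linear_combination -he)

end quad

theorem rz_lin (q l : I → ZMod 2) (hq : ∀ x y, q (x + y) = q x + q y)
    (hl : ∀ x y, l (x + y) = l x + l y) {b : ℕ} (hb : Odd b) (hb1 : 1 < b) :
    Rz I b fun d => if q d = 0 then 1 else if l d = 0 then b else 0 := by
  refine rz_coord hb (fun r _ => q r) (fun r _ => q r) (fun _ c => kp b (l c)) _ ?_ ?_ ?_
  · intro r c d
    generalize q r = a1
    generalize q (r + d) = a2
    revert a1 a2
    decide
  · intro r c d
    generalize q r = a1
    generalize q (r + d) = a2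
    revert a1 a2
    decide
  · intro r c d
    have ht : q (r + d) + q (r + d) + q (r + d) + q r = q d := by
      rw [hq]
      generalize q r = a1
      generalize q d = a2
      revert a1 a2
      decide
    have ht2 : q (r + d) + q (r + d) = 0 := by
      generalize q (r + d) = a1
      revert a1
      decide
    rw [ht, ht2, sg_zero, one_mul]
    rcases zmod2 (q d) with h | h
    · left; exact ⟨h, by rw [if_pos h]⟩
    · rcases zmod2 (l d) with h' | h'
      · right; left
        refine ⟨h, by rw [if_neg (by rw [h]; decide), if_pos h'], ?_⟩
        rw [hl, h', add_zero]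
      · right; right
        refine ⟨h, by rw [if_neg (by rw [h]; decide), if_neg (by rw [h']; decide)], ?_⟩
        rw [hl, h']
        have hb2 : Fact (1 < b) := ⟨hb1⟩
        have hn : Nontrivial (ZMod b) := ZMod.nontrivial b
        have h10 : (1 : ZMod b) ≠ 0 := one_ne_zero
        have hu : IsUnit (2 : ZMod b) := by
          have : ((2 : ℕ) : ZMod b) = 2 := by norm_num
          rw [← this, ZMod.isUnit_iff_coprime]
          exact (Nat.coprime_two_left).2 hb
        have h20 : (2 : ZMod b) ≠ 0 := hu.ne_zero
        intro he
        apply h20
        rcases zmod2 (l c) with h3 | h3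
        · rw [h3] at he
          simp only [kp, zero_add, one_ne_zero, if_false, ite_true, ite_false] at he
          first
          | linear_combination he
          | linear_combination -he
        · rw [h3, show (1 : ZMod 2) + 1 = 0 from rfl] at he
          simp only [kp, zero_add, one_ne_zero, if_false, ite_true, ite_false] at he
          first
          | linear_combination he
          | linear_combination -he

end Pool.Agent.X17.HL
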