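import Pool.Agent.X17.HL.Thirty

set_option autoImplicit false

open Finset

namespace Pool.Agent.X17.HL

/-- integer constants -/
def kZ (r c : I4) : ℤ := if r.2 = 0 ∧ c.2 = 0 then 1 else 0

/-- integer signs -/
def sZ (s : ZMod 2) : ℤ := if s = 0 then 1 else -1

theorem sZ_cast (b : ℕ) (s : ZMod 2) : ((sZ s : ℤ) : ZMod b) = sg b s := by
  unfold sZ sg; split_ifs <;> simp

/-- the form `x₁² + x₁ x₂ + x₂²` and its signs -/
def pp (r c : I4) : ZMod 2 := bt 1 1 1 r r + bt 1 1 1 r c + bt 1 1 1 c r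

theorem dec_main : ∀ r c d : I4, (d = 0 ∧ bt 1 1 1 d d = 0) ∨
    (d = (1, 0) ∧ bt 1 1 1 d d = 1 ∧ kZ r c - kZ (r + d) (c + d) =
      sZ (pp (r + d) (c + d) + pp (r + d) c) * (kZ r (c + d) - kZ (r + d) c)) ∨
    (d ≠ 0 ∧ d ≠ (1, 0) ∧ bt 1 1 1 d d = 1 ∧
      (kZ r c - kZ (r + d) (c + d) -
        sZ (pp (r + d) (c + d) + pp (r + d) c) * (kZ r (c + d) - kZ (r + d) c) = 1 ∨
       kZ r c - kZ (r + d) (c + d) -
        sZ (pp (r + d) (c + d) + pp (r + d) c) * (kZ r (c + d) - kZ (r + d) c) = -1)) := by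
  decide +kernel

theorem rz_b00 {b : ℕ} (hb : Odd b) (hb1 : 1 < b) : Rz I4 b (xyz b 0 0) := by
  have hb2 : Fact (1 < b) := ⟨hb1⟩
  have hn : Nontrivial (ZMod b) := ZMod.nontrivial b
  have h10 : (1 : ZMod b) ≠ 0 := one_ne_zero
  refine rz_coord hb pp (fun r _ => bt 1 1 1 r r) (fun r c => ((kZ r c : ℤ) : ZMod b)) _
    (fun r c d => quad_p (bt 1 1 1) (bt_l 1 1 1) (bt_r 1 1 1) r c d)
    (fun r c d => quad_r (bt 1 1 1) (bt_l 1 1 1) (bt_r 1 1 1) r c d) ?_
  intro r c d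
  have ht : pp (r + d) (c + d) + pp (r + d) c + bt 1 1 1 (r + d) (r + d) + bt 1 1 1 r r =
    bt 1 1 1 d d := quad_t (bt 1 1 1) (bt_l 1 1 1) (bt_r 1 1 1) r c d
  simp only [ht]
  rcases dec_main r c d with ⟨h1, h2⟩ | ⟨h1, h2, h3⟩ | ⟨h1, h1', h2, h3⟩
  · left; rw [h2, h1, xyz_0]; exact ⟨rfl, rfl⟩
  · right; left
    refine ⟨h2, by rw [h1, xyz_1], ?_⟩
    rw [← sZ_cast]
    exact_mod_cast congrArg (fun z : ℤ => (z : ZMod b)) h3
  · right; right
    refine ⟨h2, ?_, ?_⟩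
    · rcases I4_cases d with h | h | h | h
      · exact absurd h h1
      · exact absurd h h1'
      · rw [h, xyz_2]
      · rw [h, xyz_3]
    · rw [← sZ_cast]
      intro he
      rcases h3 with h3 | h3
      · have h4 := congrArg (fun z : ℤ => (z : ZMod b)) h3
        push_cast at h4
        exact h10 (by linear_combination he - h4)
      · have h4 := congrArg (fun z : ℤ => (z : ZMod b)) h3
        push_cast at h4
        exact h10 (by linear_combination h4 - he)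

theorem rz_100 {b : ℕ} (hb : Odd b) (hb1 : 1 < b) : Rz I4 b (xyz 1 0 0) := by
  obtain ⟨α, γ, δ, e0, e1, e2, e3⟩ := exists_bt 0 1 1
  have h : Rz I4 b fun d => if bt α γ δ d d = 0 then 1 else 0 :=
    rz_kill (bt α γ δ) (bt_l α γ δ) (bt_r α γ δ) hb hb1
  suffices key : xyz 1 0 0 = fun d => if bt α γ δ d d = 0 then 1 else 0 from by
    rw [key]; exact h
  apply ext4
  · rw [xyz_0, e0, if_pos rfl]
  · rw [xyz_1, e1, if_pos rfl]
  · rw [xyz_2, e2, if_neg (by decide)]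
  · rw [xyz_3, e3, if_neg (by decide)]

theorem rz_single {b x : ℕ} (hb : Odd b) (hb1 : 1 < b) (hx : x ∣ b) : Rz I4 b (xyz x 0 0) := by
  by_cases hxb : x = b
  · rw [hxb]; exact rz_b00 hb hb1
  · obtain ⟨k, hk⟩ := hx
    have hk1 : k ≠ 1 := by
      rintro rfl
      exact hxb (by rw [hk, mul_one])
    have hp := Nat.minFac_prime hk1
    obtain ⟨k', hk'⟩ := Nat.minFac_dvd k
    set p := k.minFac with hpdef
    have hbp : b = p * (x * k') := by rw [hk]; conv_lhs => rw [hk']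
                                      ring
    have hpo : Odd p := (Nat.odd_mul.1 (hbp ▸ hb)).1
    have hbo : Odd (x * k') := (Nat.odd_mul.1 (hbp ▸ hb)).2
    have := (rz_100 hpo hp.one_lt).mul
      (rz_div (x * k') hbo x 1 1 (Dvd.intro _ rfl) (one_dvd _) (one_dvd _))
    rw [xyz_mul, one_mul, zero_mul] at this
    rw [hbp]
    exact this

/-- single divisors -/
theorem att_single {b x : ℕ} (hb : Odd b) (hb1 : 1 < b) (hx : x ∣ b) : Att (4 * b) (x + 1) := by
  have := att_of_Rz I4_add (rz_single hb hb1 hx)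
  rw [xyz_sum, I4_card] at this
  convert this using 1
  ring

end Pool.Agent.X17.HL
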