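import Pool.Agent.X17.HL.Gen

set_option autoImplicit false

open Finset

namespace Pool.Agent.X17.HL

/-- the entries of a latin square of order `30`, five bits each -/
def T30 : ℕ := 0x824195063a9696b98f8c2549d6f6ce35cdf441014833a0cb4a9cc6c1f19ca96adf1acefbc08043290c74254b635d183e9395ed5d671de6d8d70801194883994b4f77c83e349cab6be71a731a0088a4199074a97be75f184e54bd6dace1ae6044020ca732169573bb8c1f2a4ed7ae3594ad4e634410106531d19c6b9bec22fa4e55bd9495b1ae0804520d063e359df7917c2549dab75a92d7300208ca43a0dace3bcdbe119ca97b54e64256a73581008a3256f6ceb1ddf1f08ca7441ccb525ac7082021477b5758cef9d8be1494cc83a92b639a0104642dab7c675ceee117ce9228c863a16a4b98d08052a4ef6ae758e6fb17c08519d065256d7304105272b56fac67bcdc22f190a831d2b531ae00833952b7b633adf78f8473ac56d794e8f8c39dda54b320e321401139acc6756bd674941f1df3aa5a507310a31002c73758cdeb6a4a7183fbbe2d2a39905190220358eaded3a4a2f873bbd632839864288207358b526f6aca74845fddf319d190728c80105ac7292bb56f494df08ef9dceb073208518402639a95aa549be11ef379d62d5b90a30804d7316a498e89ca908bf9bee33abdaa5190020b98d4ad4831e93945f0df79ac66b7b0c851040c6b94959d067c61cdf759c5ed5a4e410098d7254b3a0c520e0f8efbcce355bda54980416b98a5a4c740ca48c1fde6f1acdab79ca82081cc6ad2a418e41979beeb19bdab3a4a2f831cd5a927418a320820df799d62b7b52537c22d6392b518e8190a100bbcde33ab56f29d2117b9ac5256831c8518041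

/-- the inverse table: the column of a symbol in a row -/
def J30 : ℕ := 0x823290e64292b6b1d08be7495eb6c6b3cdf42011065320e95a98e6c5f0a4a76bd759c779b1040520d0732d497358f84653a56d7ce35bef1cc68041190a83992b56f9d845f49cad5beb19635c2080a3219075257ddf1f08ce54bdab8ce9ae60402214673216a4f3bb8be12a4eb7b67584ad4c73420114833a0dac679bebe1195277b55495b58e00824195063e33adf7917c293956f65a92e6b04100ca431d19d63bcdc22f9ca96add063a9696b1c0088642ded5ce35bef22f84a9331d0b4a9cd6080128c95bdb59c779b845f49c8e83254b639a1100851dab7c6b3cdf5f08ce54194874196a4b58e1003494ef6ae33aeef8f8c0a41a0c74ad4e6b02204e92aded9d639ddc60f20ca63a1495b1cd004529d2d5beb19df3b07c6117f3bbc6755b5e72a0820635ca4acc740c857c23be773ac5af595261009ae62d493a0c51922f8777cd6337ada9390041731a95a906390a39d2517c39bee758bd6c520c41039ac4a96839a929be11ef378cead7a8ca40082d6396951cc894e908bf7de6b19adae419420131cd52d2641ef6ace927c61cdf719d1d0629060089ae6256aaded29d2307efbcceb0831c8328801731aa4aed5bd25383e3de6f58c98e8194811018d72d49c6b37b56939460fe6fa952cc7410a31040c73738d56f69ca907c77de29693a0c3214201358ed6716ade549be30ef36b4a906394640082e6b37de6b19bdab3a4a2f8358e5a927418a320820e6fb9d62d5bd2537c22c73549598e8190a0107bcde33aaded29d2117b9ac4ad4831c8518402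

/-- the square -/
def L30 (r c : Fin 30) : Fin 30 :=
  ⟨(T30 >>> (5 * (30 * r.val + c.val))) % 32 % 30, Nat.mod_lt _ (by norm_num)⟩

/-- the inverse table -/
def K30 (r s : Fin 30) : Fin 30 :=
  ⟨(J30 >>> (5 * (30 * r.val + s.val))) % 32 % 30, Nat.mod_lt _ (by norm_num)⟩

theorem c1 : ∀ r c : Fin 30, K30 r (L30 r c) = c := by decide +kernel

theorem c2 : ∀ r s : Fin 30, L30 r (K30 r s) = s := by decide +kernel

theorem c3 : ∀ c r r' : Fin 30, L30 r c = L30 r' c → r = r' := by decide +kernel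

theorem c4 : ∀ r c : Fin 30,
    ((univ : Finset (Fin 30)).filter fun r' => L30 r (K30 r' (L30 r c)) = L30 r' c).card = 5 := by
  decide +kernel

theorem att_thirty : Att 30 5 := by
  refine ⟨Fin 30, inferInstance, inferInstance, L30, by simp, ⟨?_, ?_⟩, ?_⟩
  · intro r c d h
    rw [← c1 r c, h, c1]
  · intro c r r' h
    exact c3 c r r' h
  · intro r c
    rw [← c4 r c]
    refine card_nbij' (fun p => p.1) (fun r' => (r', K30 r' (L30 r c))) ?_ ?_ ?_ ?_
    · rintro ⟨r', c'⟩ hp
      simp only [full, coe_filter, mem_univ, true_and, Set.mem_setOf_eq] at hp ⊢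
      obtain ⟨h1, h2⟩ := hp
      rw [h1, c1, h2]
    · intro r' hp
      simp only [full, coe_filter, mem_univ, true_and, Set.mem_setOf_eq] at hp ⊢
      exact ⟨(c2 r' _).symm, hp⟩
    · rintro ⟨r', c'⟩ hp
      simp only [full, coe_filter, mem_univ, true_and, Set.mem_setOf_eq] at hp
      simp only [Prod.mk.injEq, true_and]
      rw [hp.1, c1]
    · intro r' hp
      rfl

/-- transport to `Fin n` -/
theorem fin_of_att {n h : ℕ} (H : Att n (h + 1)) : ∃ L : Fin n → Fin n → Fin n,
    ((∀ r, Function.Injective (L r)) ∧ ∀ c, Function.Injective fun r => L r c) ∧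
    ∀ r c, (univ.filter fun p : Fin n × Fin n =>
      p.1 ≠ r ∧ p.2 ≠ c ∧ L r c = L p.1 p.2 ∧ L r p.2 = L p.1 c).card = h := by
  obtain ⟨X, _, _, L, hc, hL, hF⟩ := H
  let e : X ≃ Fin n := Fintype.equivFinOfCardEq hc
  refine ⟨fun r c => e (L (e.symm r) (e.symm c)), ⟨?_, ?_⟩, ?_⟩
  · intro r c d h
    exact e.symm.injective (hL.1 _ (e.injective h))
  · intro c r r' h
    exact e.symm.injective (hL.2 _ (e.injective h))
  · intro r c
    have h1 : ((full L (e.symm r) (e.symm c)).erase (e.symm r, e.symm c)).card = h := by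
      rw [card_erase_of_mem (by simp [full]), hF]
      rfl
    rw [← h1]
    refine card_nbij' (fun p => (e.symm p.1, e.symm p.2)) (fun p => (e p.1, e p.2)) ?_ ?_ ?_ ?_
    · rintro ⟨r', c'⟩ hp
      simp only [full, coe_filter, coe_erase, mem_univ, true_and, Set.mem_setOf_eq,
        EmbeddingLike.apply_eq_iff_eq, Set.mem_diff, Set.mem_singleton_iff, Prod.mk.injEq,
        not_and] at hp ⊢
      exact ⟨⟨hp.2.2.1, hp.2.2.2⟩, fun h => absurd h hp.1⟩
    · rintro ⟨x, y⟩ hp
      simp only [full, coe_filter, coe_erase, mem_univ, true_and, Set.mem_setOf_eq,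
        EmbeddingLike.apply_eq_iff_eq, Set.mem_diff, Set.mem_singleton_iff, Prod.mk.injEq,
        not_and, Equiv.symm_apply_apply] at hp ⊢
      obtain ⟨⟨h2, h3⟩, h4⟩ := hp
      refine ⟨?_, ?_, h2, h3⟩
      · intro h5
        have h6 : x = e.symm r := by rw [← h5, Equiv.symm_apply_apply]
        subst h6
        exact h4 rfl ((hL.1 _ h2).symm)
      · intro h5
        have h6 : y = e.symm c := by rw [← h5, Equiv.symm_apply_apply]
        subst h6
        exact h4 ((hL.2 _ h2).symm) rfl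
    · rintro ⟨r', c'⟩ hp
      simp
    · rintro ⟨x, y⟩ hp
      simp

end Pool.Agent.X17.HL
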